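import Pool.Agent.H76.GU.Targets
import Pool.Agent.H46.GZ.MSS

/-!
# Row DC1 of the board gu: a cusp form is small where a gap is large (helper94)
-/

set_option autoImplicit false

namespace Pool.Agent.H94.GU

open MeasureTheory Pool.Agent.H34.GM Pool.Agent.H34.GZ Pool.Agent.H34.GU Pool.Agent.H76.GU
  Pool.Agent.H46.GZ
open scoped ENNReal

lemma sgl_det {m : ℕ} {b n : Mat m} {a : Fin m → ℝ} {k : Mat m} (h : Sgl b n a k) :
    b.det ≠ 0 := by
  have hn : n.det = 1 := by
    rw [Matrix.det_of_isLowerTriangular n (fun i j hij => h.up i j hij)]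
    exact Finset.prod_eq_one fun i _ => h.one i
  have hk : k.det ≠ 0 := by
    intro h0
    have h1 := congrArg Matrix.det h.orth
    rw [Matrix.det_mul, h0, zero_mul, Matrix.det_one] at h1
    exact zero_ne_one h1
  rw [h.eq, Matrix.det_mul, Matrix.det_mul, hn, one_mul, Matrix.det_diagonal]
  exact mul_ne_zero (Finset.prod_ne_zero_iff.2 fun i _ => (h.pos i).ne') hk

theorem pf_DC1 (hHAR : T_HAR) (hMSR : T_MSR) (hPRF : T_PRF) (hOSU : T_OSU) : T_DC1 := by
  intro m N _ T D hS F lam mu hF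
  have hm1 := hS.one_le
  obtain ⟨χ, hχ⟩ := hPRF
  obtain ⟨c, C, A, hc, hC, hO⟩ := hOSU m χ hm1 hχ
  have hC0 : 0 < C := by linarith
  obtain ⟨B0, hB0⟩ := hF.bdd
  set B : ℝ := max B0 0 with hBd
  have hB : ∀ g x, g.det ≠ 0 → ‖F g x‖ ≤ B := fun g x hg => (hB0 g x hg).trans (le_max_left _ _)
  have hBn : 0 ≤ B := le_max_right _ _
  have hZ : hm m (Zc m C) < ⊤ := (hHAR m hm1).2.2.2 C hC0
  set Z : ℝ := (hm m (Zc m C)).toReal with hZd
  have hZ0 : 0 ≤ Z := ENNReal.toReal_nonneg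
  have hZe : hm m (Zc m C) = ENNReal.ofReal Z := (ENNReal.ofReal_toReal hZ.ne).symm
  set s : ℝ := 1 + ∑ j, ‖mu j‖ with hs
  have hs1 : 1 ≤ s := by
    have : 0 ≤ ∑ j, ‖mu j‖ := Finset.sum_nonneg fun j _ => norm_nonneg _
    linarith
  have hs0 : 0 < s := by linarith
  set δ : ℝ := min (1 / 2) (c / s) with hδd
  have hδ : 0 < δ := lt_min (by norm_num) (div_pos hc hs0)
  have hδ2 : δ ≤ 1 / 2 := min_le_left _ _
  have hδc : δ * s ≤ c := by
    have h1 : δ ≤ c / s := min_le_right _ _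
    calc δ * s ≤ c / s * s := mul_le_mul_of_nonneg_right h1 hs0.le
      _ = c := by field_simp
  set κ : ℝ := C * δ⁻¹ ^ A with hκd
  have hκ : 0 ≤ κ := by positivity
  have hN0 : (0 : ℝ) < N := by
    have := hS.two_le
    have h2 : 0 < N := by omega
    exact_mod_cast h2
  have hzc := zc_meas hMSR m C
  refine ⟨B * N + κ * N * B * Z, by positivity, ?_⟩
  intro b n a k hSg i j hij x
  have hai := hSg.pos i
  have haj := hSg.pos j
  have hdb : b.det ≠ 0 := sgl_det hSg
  have hq0 : 0 ≤ a i / a j := (div_pos hai haj).le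
  by_cases hNa : (N : ℝ) * a i ≤ a j
  · have h2 := hO N T F lam mu hS.two_le hF δ hδ hδ2 hδc b n a k hSg i j hij hNa x
    have h3 : ∫⁻ v in Zc m C, ENNReal.ofReal ‖F (b * (mt v)⁻¹) x‖ ∂(hm m) ≤
        ENNReal.ofReal (B * Z) := by
      calc ∫⁻ v in Zc m C, ENNReal.ofReal ‖F (b * (mt v)⁻¹) x‖ ∂(hm m)
          ≤ ∫⁻ _ in Zc m C, ENNReal.ofReal B ∂(hm m) := by
            refine setLIntegral_mono' hzc fun v hv => ENNReal.ofReal_le_ofReal (hB _ _ ?_)
            rw [Matrix.det_mul]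
            refine mul_ne_zero hdb ?_
            rw [Matrix.det_nonsing_inv, Ring.inverse_eq_inv']
            exact inv_ne_zero (zc_det hC0 hv)
        _ = ENNReal.ofReal B * hm m (Zc m C) := by rw [setLIntegral_const]
        _ = ENNReal.ofReal (B * Z) := by rw [hZe, ENNReal.ofReal_mul hBn]
    have hNq : 0 ≤ κ * (N * a i / a j) := by positivity
    have h4 : ENNReal.ofReal ‖F b x‖ ≤ ENNReal.ofReal (κ * (N * a i / a j) * (B * Z)) := by
      calc ENNReal.ofReal ‖F b x‖ ≤ ENNReal.ofReal (κ * (N * a i / a j)) *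
            ENNReal.ofReal (B * Z) := h2.trans (mul_le_mul' le_rfl h3)
        _ = ENNReal.ofReal (κ * (N * a i / a j) * (B * Z)) := by
            rw [← ENNReal.ofReal_mul hNq]
    have h5 : ‖F b x‖ ≤ κ * (N * a i / a j) * (B * Z) :=
      (ENNReal.ofReal_le_ofReal_iff (by positivity)).1 h4
    have h6 : κ * (N * a i / a j) * (B * Z) = κ * N * B * Z * (a i / a j) := by ring
    have h7 : 0 ≤ B * N * (a i / a j) := by positivity
    calc ‖F b x‖ ≤ κ * N * B * Z * (a i / a j) := by rw [← h6]; exact h5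
      _ ≤ (B * N + κ * N * B * Z) * (a i / a j) := by rw [add_mul]; linarith
  · have h8 : a j < N * a i := not_le.1 hNa
    have h9 : 1 ≤ N * (a i / a j) := by
      rw [← mul_div_assoc, le_div_iff₀ haj, one_mul]
      exact h8.le
    have h10 : 0 ≤ κ * N * B * Z * (a i / a j) := by positivity
    calc ‖F b x‖ ≤ B := hB b x hdb
      _ = B * 1 := (mul_one B).symm
      _ ≤ B * (N * (a i / a j)) := mul_le_mul_of_nonneg_left h9 hBn
      _ = B * N * (a i / a j) := by ring
      _ ≤ (B * N + κ * N * B * Z) * (a i / a j) := by rw [add_mul]; linarith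

end Pool.Agent.H94.GU
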